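import Mathlib

namespace Pool.Agent.Results.MP_be36ad_co.Exact

open Finset

/-- the strong tournament on four vertices: arcs 01, 12, 23, 30, 02, 13 -/
def R4 (i j : Fin 4) : Prop := (i, j) ∈ [((0 : Fin 4), (1 : Fin 4)), (1, 2), (2, 3), (3, 0), (0, 2), (1, 3)]

/-- no subdigraph isomorphic to `R4` -/
def Free {V : Type} (D : V → V → Prop) : Prop :=
  ¬ ∃ φ : Fin 4 → V, Function.Injective φ ∧ ∀ i j, R4 i j → D (φ i) (φ j)

open Classical in
/-- out-degree -/
noncomputable def od {V : Type} [Fintype V] (D : V → V → Prop) (v : V) : ℕ :=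
  (univ.filter fun w => D v w).card

/-- sum of squared out-degrees -/
noncomputable def val {V : Type} [Fintype V] (D : V → V → Prop) : ℕ := ∑ v, od D v ^ 2

/-- the extremal value -/
def F (m : ℕ) : ℕ :=
  if m % 3 = 0 then 12 * (m / 3) ^ 3 else if m % 3 = 1 then 3 * (m / 3) * (2 * (m / 3) + 1) ^ 2
  else 12 * (m / 3) ^ 3 + 24 * (m / 3) ^ 2 + 14 * (m / 3) + 2

section aux
variable {V : Type}

def Ok (D : V → V → Prop) : Prop :=
  (∀ v, ¬ D v v) ∧ ∀ a b c d, D a b → D b c → D c d → D d a → D a c → D b d → False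

theorem ok_iff (D : V → V → Prop) : Ok D ↔ (∀ v, ¬ D v v) ∧ Free D := by
  refine and_congr_right fun hi => ⟨fun h ⟨φ, _, hφ⟩ => ?_, fun h a b c d h1 h2 h3 h4 h5 h6 => ?_⟩
  · exact h (φ 0) (φ 1) (φ 2) (φ 3) (hφ _ _ (by simp [R4])) (hφ _ _ (by simp [R4]))
      (hφ _ _ (by simp [R4])) (hφ _ _ (by simp [R4])) (hφ _ _ (by simp [R4])) (hφ _ _ (by simp [R4]))
  · have ne : ∀ x y, D x y → x ≠ y := fun x y hx he => hi x (he ▸ hx)
    have := ne _ _ h1
    have := ne _ _ h2
    have := ne _ _ h3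
    have := ne _ _ h4
    have := ne _ _ h5
    have := ne _ _ h6
    refine h ⟨![a, b, c, d], ?_, ?_⟩
    · intro i j hij
      fin_cases i <;> fin_cases j <;> simp_all
    · intro i j hij
      simp only [R4, List.mem_cons, Prod.mk.injEq, List.not_mem_nil, or_false] at hij
      rcases hij with ⟨rfl, rfl⟩ | ⟨rfl, rfl⟩ | ⟨rfl, rfl⟩ | ⟨rfl, rfl⟩ | ⟨rfl, rfl⟩ | ⟨rfl, rfl⟩ <;>
        simpa

theorem cyc4 {D : V → V → Prop} (h : Ok D) {a b c d : V} (h1 : D a b) (h2 : D b c) (h3 : D c d)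
    (h4 : D d a) (h5 : D a c ∨ D c a) (h6 : D b d ∨ D d b) : False := by
  rcases h5 with h5 | h5 <;> rcases h6 with h6 | h6
  · exact h.2 a b c d h1 h2 h3 h4 h5 h6
  · exact h.2 d a b c h4 h1 h2 h3 h6 h5
  · exact h.2 b c d a h2 h3 h4 h1 h6 h5
  · exact h.2 c d a b h3 h4 h1 h2 h5 h6

def Tw (D : V → V → Prop) (x y : V) : Prop := (∀ z, D x z ↔ D y z) ∧ ∀ z, D z x ↔ D z y

theorem Tw.rfl' (D : V → V → Prop) (x : V) : Tw D x x := ⟨fun _ => Iff.rfl, fun _ => Iff.rfl⟩

theorem Tw.symm {D : V → V → Prop} {x y : V} (h : Tw D x y) : Tw D y x :=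
  ⟨fun z => (h.1 z).symm, fun z => (h.2 z).symm⟩

theorem struct {D : V → V → Prop} (h : Ok D) (tw : ∀ x y, ¬ D x y → ¬ D y x → Tw D x y)
    (S : Set V) (x : V) (hx : x ∈ S)
    (hm : ∀ U : Set V, U ⊆ S → U.Nonempty → (∀ y ∈ S, ∀ z ∈ U, D y z → y ∈ U) → S ⊆ U) :
    ∃ a b c, ∀ y ∈ S, Tw D y a ∨ Tw D y b ∨ Tw D y c := by
  by_cases h3 : ∃ a ∈ S, ∃ b ∈ S, ∃ c ∈ S, D a b ∧ D b c ∧ D c a
  · obtain ⟨a, ha, b, hb, c, hc, ab, bc, ca⟩ := h3
    refine ⟨a, b, c, ?_⟩
    have key : ∀ w, ¬ (Tw D w a ∨ Tw D w b ∨ Tw D w c) →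
        (D w a ∧ D w b ∧ D w c ∧ ¬ D a w ∧ ¬ D b w ∧ ¬ D c w) ∨
        (D a w ∧ D b w ∧ D c w ∧ ¬ D w a ∧ ¬ D w b ∧ ¬ D w c) := by
      intro w hw
      have n1 : D w a ∨ D a w := by
        by_contra hc; push Not at hc; exact hw (Or.inl (tw _ _ hc.1 hc.2))
      have n2 : D w b ∨ D b w := by
        by_contra hc; push Not at hc; exact hw (Or.inr (Or.inl (tw _ _ hc.1 hc.2)))
      have n3 : D w c ∨ D c w := by
        by_contra hc; push Not at hc; exact hw (Or.inr (Or.inr (tw _ _ hc.1 hc.2)))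
      have k1 : ¬ (D a w ∧ D w b) := fun ⟨p, q⟩ => cyc4 h p q bc ca (Or.inl ab) n3
      have k2 : ¬ (D b w ∧ D w c) := fun ⟨p, q⟩ => cyc4 h p q ca ab (Or.inl bc) n1
      have k3 : ¬ (D c w ∧ D w a) := fun ⟨p, q⟩ => cyc4 h p q ab bc (Or.inl ca) n2
      tauto
    by_cases hI : ∃ i ∈ S, D i a ∧ D i b ∧ D i c ∧ ¬ D a i ∧ ¬ D b i ∧ ¬ D c i
    · exfalso
      obtain ⟨i, hi, hi'⟩ := hI
      have := hm {i | i ∈ S ∧ D i a ∧ D i b ∧ D i c ∧ ¬ D a i ∧ ¬ D b i ∧ ¬ D c i}
        (fun _ h => h.1) ⟨i, hi, hi'⟩ (by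
          rintro y hy z ⟨hz, z1, z2, z3, z4, z5, z6⟩ yz
          refine ⟨hy, ?_⟩
          by_cases ht : Tw D y a ∨ Tw D y b ∨ Tw D y c
          · rcases ht with t | t | t
            · exact absurd ((t.1 z).mp yz) z4
            · exact absurd ((t.1 z).mp yz) z5
            · exact absurd ((t.1 z).mp yz) z6
          · rcases key y ht with k | k
            · exact k
            · exact (cyc4 h z1 ab k.2.1 yz (Or.inl z2) (Or.inl k.1)).elim) ha
      exact h.1 a this.2.1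
    · intro y hy
      exact (hm {y | y ∈ S ∧ (Tw D y a ∨ Tw D y b ∨ Tw D y c)} (fun _ h => h.1)
        ⟨a, ha, Or.inl (Tw.rfl' D a)⟩ (by
          rintro y hy z ⟨hz, ht⟩ yz
          refine ⟨hy, ?_⟩
          by_contra hn
          rcases key y hn with k | k
          · exact hI ⟨y, hy, k⟩
          · rcases ht with t | t | t
            · exact k.2.2.2.1 ((t.2 y).mp yz)
            · exact k.2.2.2.2.1 ((t.2 y).mp yz)
            · exact k.2.2.2.2.2 ((t.2 y).mp yz)) hy).2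
  · have sy : ∀ x ∈ S, ∀ y ∈ S, Tw D y x ∨ D y x := by
      intro x hx y hy
      exact (hm {y | y ∈ S ∧ (Tw D y x ∨ D y x)} (fun _ h => h.1)
        ⟨x, hx, Or.inl (Tw.rfl' D x)⟩ (by
          rintro y hy z ⟨hz, ht⟩ yz
          refine ⟨hy, ?_⟩
          by_contra hn
          push Not at hn
          have xy : D x y := by
            by_contra hc
            exact hn.1 (tw _ _ hn.2 hc)
          rcases ht with t | t
          · exact hn.2 ((t.2 y).mp yz)
          · exact h3 ⟨x, hx, y, hy, z, hz, xy, yz, t⟩) hy).2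
    by_cases h2 : ∃ y ∈ S, ¬ Tw D y x
    · obtain ⟨y, hy, hn⟩ := h2
      refine ⟨x, y, y, fun z hz => ?_⟩
      by_contra hc
      push Not at hc
      exact h3 ⟨x, hx, y, hy, z, hz, (sy y hy x hx).resolve_left fun t => hn t.symm,
        (sy z hz y hy).resolve_left fun t => hc.2.1 t.symm, (sy x hx z hz).resolve_left hc.1⟩
    · push Not at h2
      exact ⟨x, x, x, fun z hz => Or.inl (h2 z hz)⟩

theorem F_le (r : ℕ) : 9 * F r ≤ 4 * r ^ 3 := by
  obtain ⟨q, h | h | h⟩ : ∃ q, r = 3 * q ∨ r = 3 * q + 1 ∨ r = 3 * q + 2 := ⟨r / 3, by omega⟩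
  · have h1 : r % 3 = 0 := by omega
    have h2 : r / 3 = q := by omega
    simp only [F, h1, h2]; subst h; simp; nlinarith
  · have h1 : r % 3 = 1 := by omega
    have h2 : r / 3 = q := by omega
    simp only [F, h1, h2]; subst h; simp; nlinarith
  · have h1 : r % 3 = 2 := by omega
    have h2 : r / 3 = q := by omega
    simp only [F, h1, h2]; subst h; simp; nlinarith

theorem tang (a s m : ℤ) (h1 : a ≤ s) (h2 : s ≤ m) (h0 : 0 ≤ m) :
    27 * (a * (m - a) ^ 2) ≤ s * (3 * m - s) ^ 2 + 3 * (3 * m - s) * (m - s) * (3 * a - s) := by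
  have := mul_nonneg (sq_nonneg (3 * a - s)) (show 0 ≤ 6 * m - 2 * s - 3 * a by linarith)
  linarith

theorem lin (a q m : ℤ) (h1 : a ≤ m) (h2 : 2 * q + 1 ≤ m) :
    a * (m - a) ^ 2 ≤ q * (m - q) ^ 2 + ((q + 1) * (m - q - 1) ^ 2 - q * (m - q) ^ 2) * (a - q) := by
  have h3 : 0 ≤ (a - q) * (a - q - 1) := by
    rcases le_or_gt a q with h | h
    · exact mul_nonneg_of_nonpos_of_nonpos (by linarith) (by linarith)
    · exact mul_nonneg (by linarith) (by linarith)
  have := mul_nonneg h3 (show 0 ≤ 2 * m - 2 * q - 1 - a by linarith)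
  linarith

theorem num1 (a b c r f : ℕ) (hf : 9 * f ≤ 4 * r ^ 3) :
    9 * (a * (b + c + r) ^ 2 + b * (a + c + r) ^ 2 + c * (a + b + r) ^ 2 + f) +
      3 * (r ^ 2 * (a + b + c)) ≤ 4 * (a + b + c + r) ^ 3 := by
  have t1 := tang a (a + b + c) (a + b + c + r) (by omega) (by omega) (by positivity)
  have t2 := tang b (a + b + c) (a + b + c + r) (by omega) (by omega) (by positivity)
  have t3 := tang c (a + b + c) (a + b + c + r) (by omega) (by omega) (by positivity)
  zify at hf ⊢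
  linarith

theorem num2 (a b c r q : ℕ) (h : a + b + c + r = 3 * q + 1) (hr : r < 2) :
    a * (b + c + r) ^ 2 + b * (a + c + r) ^ 2 + c * (a + b + r) ^ 2 ≤ 3 * q * (2 * q + 1) ^ 2 := by
  have l1 := lin a q (3 * q + 1) (by omega) (by omega)
  have l2 := lin b q (3 * q + 1) (by omega) (by omega)
  have l3 := lin c q (3 * q + 1) (by omega) (by omega)
  have : (0 : ℤ) ≤ q * (1 - r) := mul_nonneg (by positivity) (by omega)
  zify
  rw [show (b : ℤ) + c + r = 3 * q + 1 - a by omega, show (a : ℤ) + c + r = 3 * q + 1 - b by omega,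
    show (a : ℤ) + b + r = 3 * q + 1 - c by omega]
  rw [show (r : ℤ) = 3 * q + 1 - a - b - c by omega] at this
  linarith

theorem num3 (a b c r q : ℕ) (h : a + b + c + r = 3 * q + 2) :
    a * (b + c + r) ^ 2 + b * (a + c + r) ^ 2 + c * (a + b + r) ^ 2 ≤
      12 * q ^ 3 + 24 * q ^ 2 + 14 * q + 2 := by
  have l1 := lin a q (3 * q + 2) (by omega) (by omega)
  have l2 := lin b q (3 * q + 2) (by omega) (by omega)
  have l3 := lin c q (3 * q + 2) (by omega) (by omega)
  have : (0 : ℤ) ≤ (q + 1) * r := by positivity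
  zify
  rw [show (b : ℤ) + c + r = 3 * q + 2 - a by omega, show (a : ℤ) + c + r = 3 * q + 2 - b by omega,
    show (a : ℤ) + b + r = 3 * q + 2 - c by omega]
  rw [show (r : ℤ) = 3 * q + 2 - a - b - c by omega] at this
  linarith

theorem big (r s : ℕ) (h1 : 2 ≤ r) (h0 : 1 ≤ s) (h2 : 5 ≤ s + r) :
    6 * (s + r) + 2 ≤ 3 * (r ^ 2 * s) := by
  rcases Nat.eq_or_lt_of_le h1 with h3 | h3
  · subst h3; omega
  · obtain ⟨t, rfl⟩ : ∃ t, r = t + 3 := ⟨r - 3, by omega⟩
    obtain ⟨u, rfl⟩ : ∃ t, s = t + 1 := ⟨s - 1, by omega⟩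
    nlinarith [Nat.zero_le (t * u), Nat.zero_le (t * t * u), Nat.zero_le (t * t)]

theorem num (a b c r : ℕ) (h : 1 ≤ a + b + c) :
    a * (b + c + r) ^ 2 + b * (a + c + r) ^ 2 + c * (a + b + r) ^ 2 + F r ≤ F (a + b + c + r) := by
  have main := num1 a b c r _ (F_le r)
  have n2 := num2 a b c r
  have n3 := num3 a b c r
  have f0 : r < 2 → F r = 0 := by
    intro h; interval_cases r <;> simp [F]
  generalize a * (b + c + r) ^ 2 + b * (a + c + r) ^ 2 + c * (a + b + r) ^ 2 = X at *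
  generalize a + b + c = s at *
  have bg := big r s
  have bg2 : 2 ≤ r → s + r = 4 → 13 ≤ 3 * (r ^ 2 * s) := by
    intro h1 h2
    have : r = 2 ∧ s = 2 ∨ r = 3 ∧ s = 1 := by omega
    rcases this with ⟨rfl, rfl⟩ | ⟨rfl, rfl⟩ <;> omega
  generalize r ^ 2 * s = Y at *
  generalize hm : s + r = m at *
  obtain ⟨q, h | h | h⟩ : ∃ q, m = 3 * q ∨ m = 3 * q + 1 ∨ m = 3 * q + 2 := ⟨m / 3, by omega⟩
  · have h1 : m % 3 = 0 := by omega
    have h2 : m / 3 = q := by omega
    have : F m = 12 * q ^ 3 := by simp [F, h1, h2]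
    rw [this]; rw [h] at main; linarith [Nat.zero_le Y]
  · have h1 : m % 3 = 1 := by omega
    have h2 : m / 3 = q := by omega
    have : F m = 3 * q * (2 * q + 1) ^ 2 := by simp [F, h1, h2]
    rw [this]
    by_cases hr : r < 2
    · rw [f0 hr]
      exact n2 q h hr
    · have : 3 * m + 1 ≤ 3 * Y := by omega
      rw [h] at main this; linarith
  · have h1 : m % 3 = 2 := by omega
    have h2 : m / 3 = q := by omega
    have : F m = 12 * q ^ 3 + 24 * q ^ 2 + 14 * q + 2 := by simp [F, h1, h2]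
    rw [this]
    by_cases hr : r < 2
    · rw [f0 hr]
      exact n3 q h
    · have : 6 * m + 2 ≤ 3 * Y := by omega
      rw [h] at main this; linarith

variable [Fintype V]

theorem part (D : V → V → Prop) (T P : Finset V) (hP : P ⊆ T) (hT : ∀ x ∈ T, ∀ y, D x y → y ∈ T)
    (hi : ∀ x ∈ P, ∀ y ∈ P, ¬ D x y) (k : ℕ) (hk : P.card + k = T.card) :
    ∑ x ∈ P, od D x ^ 2 ≤ P.card * k ^ 2 := by
  classical
  refine (sum_le_card_nsmul _ _ (k ^ 2) fun x hx => Nat.pow_le_pow_left ?_ 2).trans (by simp)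
  have : (T \ P).card = k := by rw [card_sdiff_of_subset hP]; omega
  rw [← this]
  unfold od
  refine card_le_card fun y hy => ?_
  simp only [mem_filter, mem_univ, true_and] at hy
  exact mem_sdiff.mpr ⟨hT x (hP hx) y hy, fun h => hi x hx y h hy⟩

theorem upper_tw {D : V → V → Prop} (h : Ok D) (tw : ∀ x y, ¬ D x y → ¬ D y x → Tw D x y) :
    ∀ (n : ℕ) (T : Finset V), T.card = n → (∀ x ∈ T, ∀ y, D x y → y ∈ T) →
      ∑ x ∈ T, od D x ^ 2 ≤ F n := by
  classical
  intro n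
  induction n using Nat.strong_induction_on with
  | _ n ih =>
  intro T hn hT
  rcases T.eq_empty_or_nonempty with rfl | hne
  · simp
  obtain ⟨S, hS, hmin⟩ := exists_min_image (T.powerset.filter fun U => U.Nonempty ∧
    ∀ y ∈ T, ∀ z ∈ U, D y z → y ∈ U) card ⟨T, by simp [hne]; tauto⟩
  simp only [mem_filter, mem_powerset] at hS hmin
  obtain ⟨hST, ⟨x, hx⟩, hc⟩ := hS
  obtain ⟨a, b, c, habc⟩ := struct h tw (S : Set V) x hx (by
    intro U hU ⟨u, hu⟩ hcl
    have h1 : S.filter (· ∈ U) ⊆ S := filter_subset _ _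
    have := hmin (S.filter (· ∈ U)) ⟨h1.trans hST, ⟨u, by simpa [hu] using hU hu⟩, fun y hy z hz yz => by
      rw [mem_filter] at hz ⊢
      exact ⟨hc y hy z hz.1 yz, hcl y (hc y hy z hz.1 yz) z hz.2 yz⟩⟩
    have := eq_of_subset_of_card_le h1 this
    intro y hy
    have : y ∈ S.filter (· ∈ U) := by rw [this]; exact hy
    exact (mem_filter.mp this).2)
  have ind : ∀ a x y, Tw D x a → Tw D y a → ¬ D x y := fun a x y h1 h2 h3 =>
    h.1 a ((h2.2 a).mp ((h1.1 y).mp h3))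
  set A := S.filter fun y => Tw D y a with hA
  set S1 := S.filter fun y => ¬ Tw D y a with hS1
  set B := S1.filter fun y => Tw D y b with hB
  set C := S1.filter fun y => ¬ Tw D y b with hC
  have c1 : A.card + S1.card = S.card := card_filter_add_card_filter_not _
  have c2 : B.card + C.card = S1.card := card_filter_add_card_filter_not _
  have c3 : (T \ S).card + S.card = T.card := card_sdiff_add_card_eq_card hST
  have c4 : 0 < S.card := card_pos.mpr ⟨x, hx⟩
  have s1 : ∑ x ∈ A, od D x ^ 2 + ∑ x ∈ S1, od D x ^ 2 = ∑ x ∈ S, od D x ^ 2 :=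
    sum_filter_add_sum_filter_not _ _ _
  have s2 : ∑ x ∈ B, od D x ^ 2 + ∑ x ∈ C, od D x ^ 2 = ∑ x ∈ S1, od D x ^ 2 :=
    sum_filter_add_sum_filter_not _ _ _
  have s3 : ∑ x ∈ T \ S, od D x ^ 2 + ∑ x ∈ S, od D x ^ 2 = ∑ x ∈ T, od D x ^ 2 := sum_sdiff hST
  have p1 := part D T A ((filter_subset _ _).trans hST) hT (fun x hx y hy =>
    ind a x y (mem_filter.mp hx).2 (mem_filter.mp hy).2) (B.card + C.card + (T \ S).card) (by omega)
  have p2 := part D T B ((filter_subset _ _).trans ((filter_subset _ _).trans hST)) hT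
    (fun x hx y hy => ind b x y (mem_filter.mp hx).2 (mem_filter.mp hy).2)
    (A.card + C.card + (T \ S).card) (by omega)
  have hCc : ∀ x ∈ C, Tw D x c := fun x hx => by
    simp only [hC, hS1, mem_filter] at hx
    exact ((habc x hx.1.1).resolve_left hx.1.2).resolve_left hx.2
  have p3 := part D T C ((filter_subset _ _).trans ((filter_subset _ _).trans hST)) hT
    (fun x hx y hy => ind c x y (hCc x hx) (hCc y hy)) (A.card + B.card + (T \ S).card) (by omega)
  have p4 := ih (T \ S).card (by omega) (T \ S) rfl fun x hx y xy => by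
    rw [mem_sdiff] at hx ⊢
    exact ⟨hT x hx.1 y xy, fun hy => hx.2 (hc x hx.1 y hy xy)⟩
  have p5 := num A.card B.card C.card (T \ S).card (by omega)
  rw [show A.card + B.card + C.card + (T \ S).card = n by omega] at p5
  omega

open Classical in
noncomputable def cl (v u x : V) : V := if x = v then u else x

theorem sum_cl (f : V → ℕ) (v u : V) : ∑ y, f (cl v u y) + f v = ∑ y, f y + f u := by
  classical
  rw [← add_sum_erase _ _ (mem_univ v), ← add_sum_erase univ f (mem_univ v),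
    sum_congr rfl (g := f) fun y hy => by simp [cl, (mem_erase.mp hy).1]]
  simp [cl]; ring

open Classical in
theorem od_cl (D : V → V → Prop) (v u x : V) :
    od (fun a b => D (cl v u a) (cl v u b)) x + (if D (cl v u x) v then 1 else 0) =
      od D (cl v u x) + if D (cl v u x) u then 1 else 0 := by
  have := sum_cl (fun y => if D (cl v u x) y then 1 else 0) v u
  simp only [od, card_filter]
  convert this

theorem val_cl {D : V → V → Prop} (h : Ok D) {u v : V} (h1 : ¬ D u v) (h2 : ¬ D v u) :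
    2 * val D ≤ val (fun a b => D (cl v u a) (cl v u b)) + val (fun a b => D (cl u v a) (cl u v b)) := by
  classical
  have e : val D = ∑ x, od D (Equiv.swap u v x) ^ 2 :=
    (Equiv.sum_comp (Equiv.swap u v) fun x => od D x ^ 2).symm
  rw [two_mul]
  nth_rewrite 2 [e]
  simp only [val, ← sum_add_distrib]
  refine sum_le_sum fun x _ => ?_
  have a1 := od_cl D v u x
  have a2 := od_cl D u v x
  have i1 := h.1 u
  have i2 := h.1 v
  generalize od (fun a b => D (cl v u a) (cl v u b)) x = p at *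
  generalize od (fun a b => D (cl u v a) (cl u v b)) x = q at *
  by_cases hu : x = u
  · subst hu
    simp [cl, h1, h2, i1, i2] at a1 a2 ⊢
    subst a1 a2; rfl
  by_cases hv : x = v
  · subst hv
    simp [cl, h1, h2, i1, i2] at a1 a2 ⊢
    subst a1 a2; omega
  rw [Equiv.swap_apply_of_ne_of_ne hu hv]
  simp only [cl, hu, hv, if_false] at a1 a2
  have : p + q = 2 * od D x := by omega
  nlinarith [sq_nonneg ((p : ℤ) - q)]

open Classical in
noncomputable def Φ (D : V → V → Prop) : ℕ := ∑ x, ∑ y, if Tw D x y then 1 else 0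

open Classical in
theorem Φ_cl (D : V → V → Prop) {u v : V} (h : ¬ Tw D u v) :
    Φ D + 2 * (∑ y, if Tw D u y then 1 else 0) + 2 ≤
      Φ (fun a b => D (cl v u a) (cl v u b)) + 2 * ∑ y, if Tw D v y then 1 else 0 := by
  have h1 : (∑ x, ∑ y, if Tw D (cl v u x) (cl v u y) then 1 else 0) ≤
      Φ (fun a b => D (cl v u a) (cl v u b)) := by
    refine sum_le_sum fun x _ => sum_le_sum fun y _ => ?_
    by_cases ht : Tw D (cl v u x) (cl v u y)
    · rw [if_pos ht, if_pos ⟨fun z => ht.1 _, fun z => ht.2 _⟩]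
    · simp [ht]
  have h2 := sum_cl (fun w => ∑ y, if Tw D w (cl v u y) then 1 else 0) v u
  have h3 := fun w => sum_cl (fun y => if Tw D w y then 1 else 0) v u
  have h4 := sum_congr (rfl : (univ : Finset V) = univ) fun w _ => h3 w
  have h5 := h3 u
  have h6 := h3 v
  have sy : ∀ a, (∑ w, if Tw D w a then 1 else 0) = ∑ w, if Tw D a w then 1 else 0 := fun a =>
    sum_congr rfl fun w _ => if_congr ⟨Tw.symm, Tw.symm⟩ rfl rfl
  simp only [sum_add_distrib, sy] at h4
  rw [if_neg h, if_pos (Tw.rfl' D u)] at h5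
  rw [if_neg fun t => h (Tw.symm t), if_pos (Tw.rfl' D v)] at h6
  unfold Φ at h1 ⊢
  omega

theorem upper (D : V → V → Prop) (h : Ok D) : val D ≤ F (Fintype.card V) := by
  classical
  obtain ⟨D1, h1, m1⟩ := exists_max_image (univ.filter fun E : V → V → Prop => Ok E) val
    ⟨D, by simp [h]⟩
  obtain ⟨D2, h2, m2⟩ := exists_max_image
    (univ.filter fun E : V → V → Prop => Ok E ∧ val E = val D1) Φ ⟨D1, by simpa using h1⟩
  simp only [mem_filter, mem_univ, true_and] at h1 m1 h2 m2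
  have ok : ∀ v u, Ok fun a b => D2 (cl v u a) (cl v u b) := fun v u =>
    ⟨fun x => h2.1.1 _, fun a b c d => h2.1.2 _ _ _ _⟩
  refine (m1 D h).trans (h2.2 ▸ upper_tw h2.1 (fun u v n1 n2 => ?_) _ univ rfl (by simp))
  by_contra hn
  have a1 := val_cl h2.1 n1 n2
  have a2 := m1 _ (ok v u)
  have a3 := m1 _ (ok u v)
  have a4 := m2 _ ⟨ok v u, by omega⟩
  have a5 := m2 _ ⟨ok u v, by omega⟩
  have a6 := Φ_cl D2 hn
  have a7 := Φ_cl D2 fun t => hn (Tw.symm t)
  omega

end aux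

def pt {a b c r : ℕ} : Fin a ⊕ Fin b ⊕ Fin c ⊕ Fin r → Fin 4
  | .inl _ => 0
  | .inr (.inl _) => 1
  | .inr (.inr (.inl _)) => 2
  | .inr (.inr (.inr _)) => 3

theorem lower (a b c r m : ℕ) (hm : a + b + c + r = m) :
    ∃ D : Fin m → Fin m → Prop, Ok D ∧
      val D = a * (b + c + r) ^ 2 + b * (a + c + r) ^ 2 + c * (a + b + r) ^ 2 := by
  classical
  obtain ⟨e⟩ : Nonempty (Fin m ≃ Fin a ⊕ Fin b ⊕ Fin c ⊕ Fin r) :=
    Fintype.card_eq.mp (by simp; omega)
  refine ⟨fun x y => pt (e x) ≠ 3 ∧ pt (e x) ≠ pt (e y), ⟨fun v => by simp, fun x y z w => ?_⟩, ?_⟩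
  · beta_reduce
    generalize pt (e x) = i
    generalize pt (e y) = j
    generalize pt (e z) = k
    generalize pt (e w) = l
    revert i j k l
    decide
  · simp only [val, od, card_filter]
    rw [sum_congr rfl fun x _ => congrArg (· ^ 2) (Equiv.sum_comp e
      fun y => if pt (e x) ≠ 3 ∧ pt (e x) ≠ pt y then 1 else 0),
      Equiv.sum_comp e fun x => (∑ y, if pt x ≠ 3 ∧ pt x ≠ pt y then 1 else 0) ^ 2]
    simp [Fintype.sum_sum_type, pt]
    ring

theorem result (m : ℕ) :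
    IsGreatest {s | ∃ D : Fin m → Fin m → Prop, (∀ v, ¬ D v v) ∧ Free D ∧ val D = s} (F m) := by
  constructor
  · obtain ⟨q, h | h | h⟩ : ∃ q, m = 3 * q ∨ m = 3 * q + 1 ∨ m = 3 * q + 2 := ⟨m / 3, by omega⟩
    · obtain ⟨D, h1, h2⟩ := lower q q q 0 m (by omega)
      refine ⟨D, h1.1, ((ok_iff D).mp h1).2, h2.trans ?_⟩
      simp only [F, show m % 3 = 0 by omega, show m / 3 = q by omega]; simp; ring
    · obtain ⟨D, h1, h2⟩ := lower q q q 1 m (by omega)
      refine ⟨D, h1.1, ((ok_iff D).mp h1).2, h2.trans ?_⟩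
      simp only [F, show m % 3 = 1 by omega, show m / 3 = q by omega]; simp; ring
    · obtain ⟨D, h1, h2⟩ := lower (q + 1) (q + 1) q 0 m (by omega)
      refine ⟨D, h1.1, ((ok_iff D).mp h1).2, h2.trans ?_⟩
      simp only [F, show m % 3 = 2 by omega, show m / 3 = q by omega]; simp; ring
  · rintro s ⟨D, h1, h2, rfl⟩
    simpa using upper D ((ok_iff D).mpr ⟨h1, h2⟩)

end Pool.Agent.Results.MP_be36ad_co.Exact
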